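import Pool.Agent.NH4.XH.Stm

/-!
# The number of the elements of the kernel of the Redei matrix and the condition `KrF`
-/

set_option autoImplicit false

open scoped Classical

namespace Pool.Agent.NH4.XH

open Finset
open Pool.Agent.Y703.CQ (nr)
open Pool.Agent.NH4.XG (nx Ram SolG)
open Pool.Agent.NH3.XE (FD KrF dl tb kr_iff_gd)

namespace KR50

theorem f2 : ∀ w : ZMod 2, w = 0 ∨ w = 1 := by decide

theorem sol_congr {θ : ZMod 2} {S : Finset ℕ} {w w' : ZMod 2} {x y : ℕ → ZMod 2} (hw : w = w')
    (h : ∀ p ∈ S, x p = y p) : NH3.XE.Sol θ S w x ↔ NH3.XE.Sol θ S w' y := by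
  subst hw
  unfold NH3.XE.Sol
  refine forall₂_congr fun p hp => ?_
  rw [Finset.sum_congr rfl fun q hq => by rw [h q hq, h p hp], h p hp]

/-- the number of the solutions is two if and only if the kernel is as small as possible -/
theorem cnt {θ : ZMod 2} {S : Finset ℕ} (h2 : 2 ∉ S) (hne : θ = 0 → S.Nonempty) :
    ((insert 2 S).powerset.filter fun T => NH3.XE.Sol θ S (if 2 ∈ T then 1 else 0)
      fun p => if p ∈ T then 1 else 0).card = 2 ↔ NH3.XE.Gd θ S := by
  obtain ⟨T1, hT1⟩ : ∃ T1 : Finset ℕ, T1 = if θ = 1 then insert 2 S else S := ⟨_, rfl⟩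
  have h01 : ¬ (0 : ZMod 2) = 1 := by decide
  have hsub : T1 ⊆ insert 2 S := by
    rw [hT1]
    split_ifs
    · exact Subset.refl _
    · exact subset_insert _ _
  have hmem : ∀ p ∈ S, p ∈ T1 := by
    intro p hp
    rw [hT1]
    split_ifs
    · exact mem_insert_of_mem hp
    · exact hp
  have h2T : (if 2 ∈ T1 then (1 : ZMod 2) else 0) = θ := by
    rcases f2 θ with h | h
    · have e : T1 = S := by
        rw [hT1]
        exact if_neg (by rw [h]; exact h01)
      rw [e, if_neg h2, h]
    · have e : T1 = insert 2 S := by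
        rw [hT1]
        exact if_pos h
      rw [e, if_pos (mem_insert_self _ _), h]
  have hne2 : (∅ : Finset ℕ) ≠ T1 := by
    intro h
    rcases f2 θ with h3 | h3
    · obtain ⟨p, hp⟩ := hne h3
      have := hmem p hp
      rw [← h] at this
      exact notMem_empty p this
    · rw [if_pos h3] at hT1
      rw [hT1] at h
      exact notMem_empty 2 (h ▸ mem_insert_self 2 S)
  obtain ⟨F, hF⟩ : ∃ F : Finset (Finset ℕ), F = (insert 2 S).powerset.filter fun T =>
    NH3.XE.Sol θ S (if 2 ∈ T then 1 else 0) fun p => if p ∈ T then 1 else 0 := ⟨_, rfl⟩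
  rw [← hF]
  have h0 : ∅ ∈ F := by
    rw [hF]
    refine Finset.mem_filter.2 ⟨Finset.empty_mem_powerset _, ?_⟩
    intro p _
    simp
  have hS : T1 ∈ F := by
    rw [hF]
    refine Finset.mem_filter.2 ⟨Finset.mem_powerset.2 hsub, ?_⟩
    rw [h2T]
    intro p hp
    beta_reduce
    have e : (1 : ZMod 2) + 1 = 0 := by decide
    have e2 : θ + θ * 1 = 0 := by
      rcases f2 θ with h | h <;> rw [h] <;> decide
    rw [if_pos (hmem p hp), e2, mul_zero, add_zero]
    refine Finset.sum_eq_zero fun q hq => ?_
    rw [if_pos (hmem q hq), e, mul_zero]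
  constructor
  · intro h w x hx
    have h3 : ({∅, T1} : Finset (Finset ℕ)) = F := by
      refine Finset.eq_of_subset_of_card_le ?_ ?_
      · intro T hT
        rcases Finset.mem_insert.1 hT with rfl | hT
        · exact h0
        · rw [Finset.mem_singleton.1 hT]
          exact hS
      · rw [h, Finset.card_pair hne2]
    obtain ⟨y, hy⟩ : ∃ y : ℕ → ZMod 2, y = fun p => if p = 2 then w else x p := ⟨_, rfl⟩
    have hy2 : y 2 = w := by rw [hy]; exact if_pos rfl
    have hyS : ∀ p ∈ S, y p = x p := by
      intro p hp
      rw [hy]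
      exact if_neg fun e : p = 2 => h2 (e ▸ hp)
    obtain ⟨T, hT⟩ : ∃ T : Finset ℕ, T = (insert 2 S).filter fun p => y p = 1 := ⟨_, rfl⟩
    have hind : ∀ p ∈ insert 2 S, (if p ∈ T then (1 : ZMod 2) else 0) = y p := by
      intro p hp
      rcases f2 (y p) with h4 | h4
      · rw [if_neg, h4]
        intro h5
        rw [hT] at h5
        rw [(Finset.mem_filter.1 h5).2] at h4
        exact h01 h4.symm
      · rw [if_pos, h4]
        rw [hT]
        exact Finset.mem_filter.2 ⟨hp, h4⟩
    have h4 : T ∈ F := by
      rw [hF]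
      refine Finset.mem_filter.2 ⟨Finset.mem_powerset.2 ?_, ?_⟩
      · rw [hT]
        exact filter_subset _ _
      · refine (sol_congr ?_ fun p hp => ?_).1 hx
        · rw [hind 2 (mem_insert_self _ _), hy2]
        · rw [hind p (mem_insert_of_mem hp), hyS p hp]
    rw [← h3] at h4
    rcases Finset.mem_insert.1 h4 with h5 | h5
    · refine ⟨0, ?_, fun p hp => ?_⟩
      · rw [mul_zero, ← hy2, ← hind 2 (mem_insert_self _ _), h5, if_neg (notMem_empty 2)]
      · rw [← hyS p hp, ← hind p (mem_insert_of_mem hp), h5, if_neg (notMem_empty p)]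
    · have h5 := Finset.mem_singleton.1 h5
      refine ⟨1, ?_, fun p hp => ?_⟩
      · rw [mul_one, ← hy2, ← hind 2 (mem_insert_self _ _), h5, h2T]
      · rw [← hyS p hp, ← hind p (mem_insert_of_mem hp), h5, if_pos (hmem p hp)]
  · intro h
    have h3 : ({∅, T1} : Finset (Finset ℕ)) = F := by
      refine Finset.Subset.antisymm ?_ ?_
      · intro T hT
        rcases Finset.mem_insert.1 hT with rfl | hT
        · exact h0
        · rw [Finset.mem_singleton.1 hT]
          exact hS
      · intro T hT
        rw [hF] at hT
        obtain ⟨h3, h4⟩ := Finset.mem_filter.1 hT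
        rw [Finset.mem_powerset] at h3
        rw [Finset.mem_insert, Finset.mem_singleton]
        obtain ⟨c, hc, hx⟩ := h _ _ h4
        rcases f2 c with h5 | h5
        · left
          rw [eq_empty_iff_forall_notMem]
          intro p hp
          rcases mem_insert.1 (h3 hp) with h6 | h6
          · rw [h6] at hp
            rw [if_pos hp, h5, mul_zero] at hc
            exact h01 hc.symm
          · have h7 := hx p h6
            rw [if_pos hp, h5] at h7
            exact h01 h7.symm
        · right
          have hall : ∀ p ∈ S, p ∈ T := by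
            intro p hp
            by_contra h6
            have h7 := hx p hp
            rw [if_neg h6, h5] at h7
            exact h01 h7
          rw [h5, mul_one] at hc
          ext p
          by_cases hp2 : p = 2
          · rw [hp2]
            rcases f2 θ with h6 | h6
            · have h8 : 2 ∉ T := by
                intro h9
                rw [if_pos h9, h6] at hc
                exact h01 hc.symm
              have h9 : 2 ∉ T1 := by
                intro h9
                rw [if_pos h9, h6] at h2T
                exact h01 h2T.symm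
              exact ⟨fun h => absurd h h8, fun h => absurd h h9⟩
            · have h8 : 2 ∈ T := by
                by_contra h9
                rw [if_neg h9, h6] at hc
                exact h01 hc
              have h9 : 2 ∈ T1 := by
                by_contra h9
                rw [if_neg h9, h6] at h2T
                exact h01 h2T
              exact ⟨fun _ => h9, fun _ => h8⟩
          · constructor
            · intro h6
              rcases mem_insert.1 (h3 h6) with h7 | h7
              · exact absurd h7 hp2
              · exact hmem p h7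
            · intro h6
              rcases mem_insert.1 (hsub h6) with h7 | h7
              · exact absurd h7 hp2
              · exact hall p h7
    rw [← h3, Finset.card_pair hne2]

/-- the odd discriminants -/
theorem cntD {S : Finset ℕ} (hne : S.Nonempty) :
    (S.powerset.filter fun T => NH3.XD.Sol S fun p => if p ∈ T then 1 else 0).card = 2 ↔
      NH3.XD.Gd S := by
  unfold NH3.XD.Gd
  have hE : ∀ x y : ℕ → ZMod 2, (∀ p ∈ S, x p = y p) → (NH3.XD.Sol S x ↔ NH3.XD.Sol S y) := by
    intro x y h
    unfold NH3.XD.Sol
    refine forall₂_congr fun p hp => ?_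
    rw [Finset.sum_congr rfl fun q hq => by rw [h q hq, h p hp]]
  have h0 : ∅ ∈ S.powerset.filter fun T => NH3.XD.Sol S fun p => if p ∈ T then 1 else 0 := by
    refine Finset.mem_filter.2 ⟨Finset.empty_mem_powerset S, ?_⟩
    intro p _
    simp
  have hS : S ∈ S.powerset.filter fun T => NH3.XD.Sol S fun p => if p ∈ T then 1 else 0 := by
    refine Finset.mem_filter.2 ⟨Finset.mem_powerset.2 (Finset.Subset.refl _), ?_⟩
    intro p hp
    refine Finset.sum_eq_zero fun q hq => ?_
    beta_reduce
    rw [if_pos hp, if_pos hq]
    have : (1 : ZMod 2) + 1 = 0 := by decide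
    rw [this, mul_zero]
  have hne2 : (∅ : Finset ℕ) ≠ S := hne.ne_empty.symm
  constructor
  · intro h x hx p hp q hq
    have h2 : ({∅, S} : Finset (Finset ℕ)) =
        S.powerset.filter fun T => NH3.XD.Sol S fun p => if p ∈ T then 1 else 0 := by
      refine Finset.eq_of_subset_of_card_le ?_ ?_
      · intro T hT
        rcases Finset.mem_insert.1 hT with rfl | hT
        · exact h0
        · rw [Finset.mem_singleton.1 hT]
          exact hS
      · rw [h, Finset.card_pair hne2]
    have h3 : (S.filter fun p => x p = 1) ∈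
        S.powerset.filter fun T => NH3.XD.Sol S fun p => if p ∈ T then 1 else 0 := by
      refine Finset.mem_filter.2 ⟨Finset.mem_powerset.2 (Finset.filter_subset _ _), ?_⟩
      refine (hE _ _ fun r hr => ?_).1 hx
      rcases f2 (x r) with h3 | h3
      · rw [if_neg, h3]
        intro h4
        rw [(Finset.mem_filter.1 h4).2] at h3
        exact one_ne_zero h3
      · rw [if_pos (Finset.mem_filter.2 ⟨hr, h3⟩), h3]
    rw [← h2] at h3
    rcases Finset.mem_insert.1 h3 with h4 | h4
    · have h5 : ∀ r ∈ S, x r = 0 := by
        intro r hr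
        rcases f2 (x r) with h6 | h6
        · exact h6
        · exfalso
          have : r ∈ S.filter fun p => x p = 1 := Finset.mem_filter.2 ⟨hr, h6⟩
          rw [h4] at this
          exact Finset.notMem_empty r this
      rw [h5 p hp, h5 q hq]
    · have h4 := Finset.mem_singleton.1 h4
      have h5 : ∀ r ∈ S, x r = 1 := by
        intro r hr
        rw [← h4] at hr
        exact (Finset.mem_filter.1 hr).2
      rw [h5 p hp, h5 q hq]
  · intro h
    have h2 : ({∅, S} : Finset (Finset ℕ)) =
        S.powerset.filter fun T => NH3.XD.Sol S fun p => if p ∈ T then 1 else 0 := by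
      refine Finset.Subset.antisymm ?_ ?_
      · intro T hT
        rcases Finset.mem_insert.1 hT with rfl | hT
        · exact h0
        · rw [Finset.mem_singleton.1 hT]
          exact hS
      · intro T hT
        obtain ⟨h3, h4⟩ := Finset.mem_filter.1 hT
        rw [Finset.mem_powerset] at h3
        rw [Finset.mem_insert, Finset.mem_singleton]
        by_cases h5 : T = ∅
        · exact Or.inl h5
        · right
          obtain ⟨p, hp⟩ := Finset.nonempty_iff_ne_empty.2 h5
          refine Finset.Subset.antisymm h3 fun q hq => ?_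
          have h6 := h _ h4 p (h3 hp) q hq
          rw [if_pos hp] at h6
          by_contra h7
          rw [if_neg h7] at h6
          exact one_ne_zero h6
    rw [← h2, Finset.card_pair hne2]

theorem filt_congr {P : Finset (Finset ℕ)} {f g : Finset ℕ → Prop} (h : ∀ T ∈ P, (f T ↔ g T)) :
    (P.filter f).card = (P.filter g).card := by
  refine congrArg card ?_
  ext T
  rw [mem_filter, mem_filter]
  exact and_congr_right fun hT => h T hT

/-- type `0`: `M = 1` modulo `4` -/
theorem nx0 {S : Finset ℕ} (h2 : 2 ∉ S) (h4 : (∏ p ∈ S, p) % 4 = 3) :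
    nx S = (S.powerset.filter fun T => NH3.XD.Sol S fun p => if p ∈ T then 1 else 0).card := by
  unfold nx
  have e : Ram S = S := if_pos h4
  rw [e]
  refine filt_congr fun T hT => ?_
  rw [mem_powerset] at hT
  unfold SolG NH3.XD.Sol
  rw [erase_eq_of_notMem h2]
  refine forall₂_congr fun p _ => ?_
  beta_reduce
  rw [if_neg h2, if_neg (fun h => h2 (hT h)), mul_zero, add_zero]

/-- type `1`: `M = 3` modulo `4` -/
theorem nx1 {S : Finset ℕ} (h2 : 2 ∉ S) (h4 : ¬ (∏ p ∈ S, p) % 4 = 3) :
    nx S = ((insert 2 S).powerset.filter fun T => NH3.XE.Sol 0 S (if 2 ∈ T then 1 else 0)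
      fun p => if p ∈ T then 1 else 0).card := by
  unfold nx
  have e : Ram S = insert 2 S := if_neg h4
  rw [e]
  refine filt_congr fun T _ => ?_
  unfold SolG NH3.XE.Sol
  rw [erase_eq_of_notMem h2]
  refine forall₂_congr fun p _ => ?_
  rw [if_neg h2, zero_mul, add_zero]

/-- type `2`: `M` even -/
theorem nx2 {S : Finset ℕ} (h2 : 2 ∉ S) (h4 : ¬ (∏ p ∈ insert 2 S, p) % 4 = 3) :
    nx (insert 2 S) = ((insert 2 S).powerset.filter fun T => NH3.XE.Sol 1 S
      (if 2 ∈ T then 1 else 0) fun p => if p ∈ T then 1 else 0).card := by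
  unfold nx
  have e : Ram (insert 2 S) = insert 2 S := by
    unfold Ram
    rw [if_neg h4]
    exact insert_eq_of_mem (mem_insert_self _ _)
  rw [e]
  refine filt_congr fun T _ => ?_
  unfold SolG NH3.XE.Sol
  rw [erase_insert h2]
  refine forall₂_congr fun p _ => ?_
  rw [if_pos (mem_insert_self 2 S), sum_insert h2, add_zero, one_mul, add_comm]

end KR50

open KR50

/-- **the kernel count and the condition `KrF`** -/
theorem t_HKR : S_HKR := by
  intro M hM
  obtain ⟨h0, hs, h3, h5⟩ := hM
  have hsn : Squarefree M.natAbs := Int.squarefree_natAbs.2 hs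
  have hM4 : M % 4 ≠ 0 := by
    intro h
    have h4 : (2 : ℤ) * 2 ∣ M := by omega
    have := hs 2 h4
    rw [Int.isUnit_iff] at this
    omega
  by_cases h4 : M % 4 = 1
  · -- odd discriminants
    have ed : dsc M = M := if_pos h4
    rw [ed]
    refine ⟨⟨h0, Or.inl ⟨h4, hs⟩, h3, h5⟩, ?_⟩
    have hp : ∀ p ∈ M.natAbs.primeFactors, p.Prime ∧ p ≠ 2 ∧ p ≠ 3 ∧ p ≠ 5 := by
      intro p hp
      have hd := Nat.dvd_of_mem_primeFactors hp
      refine ⟨Nat.prime_of_mem_primeFactors hp, ?_, ?_, ?_⟩
      · rintro rfl
        omega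
      · rintro rfl
        omega
      · rintro rfl
        omega
    have h2 : 2 ∉ M.natAbs.primeFactors := fun h => (hp 2 h).2.1 rfl
    have e1 : ∏ p ∈ M.natAbs.primeFactors, p = M.natAbs := Nat.prod_primeFactors_of_squarefree hsn
    have hne : M.natAbs.primeFactors.Nonempty := by
      rw [Nat.nonempty_primeFactors]
      omega
    rw [nx0 h2 (by rw [e1]; omega), cntD hne]
    unfold KrF
    rw [XW.Od.Kr_odd (fun p h => ⟨(hp p h).1, (hp p h).2.2⟩) h2]
    exact (NH3.XD.kr_iff fun p h => ⟨(hp p h).1, (hp p h).2.1⟩).symm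
  · have ed : dsc M = 4 * M := if_neg h4
    rw [ed]
    have e4 : 4 * M / 4 = M := by omega
    have hFD : FD (4 * M) := by
      refine ⟨by omega, Or.inr ⟨by omega, ?_, ?_⟩, by omega, by omega⟩
      · rw [e4]
        exact hs
      · rw [e4]
        omega
    refine ⟨hFD, ?_⟩
    by_cases h6 : M % 4 = 3
    · have hN0 : M.natAbs ≠ 0 := by omega
      have hp : ∀ p ∈ M.natAbs.primeFactors, p.Prime ∧ p ≠ 2 ∧ p ≠ 3 ∧ p ≠ 5 := by
        intro p hp
        have hd := Nat.dvd_of_mem_primeFactors hp
        refine ⟨Nat.prime_of_mem_primeFactors hp, ?_, ?_, ?_⟩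
        · rintro rfl
          omega
        · rintro rfl
          omega
        · rintro rfl
          omega
      have h2 : 2 ∉ M.natAbs.primeFactors := fun h => (hp 2 h).2.1 rfl
      have e1 : ∏ p ∈ M.natAbs.primeFactors, p = M.natAbs :=
        Nat.prod_primeFactors_of_squarefree hsn
      have hne : M.natAbs.primeFactors.Nonempty := by
        rw [Nat.nonempty_primeFactors]
        omega
      rw [nx1 h2 (by rw [e1]; omega), cnt h2 fun _ => hne]
      unfold KrF
      have e5 : (4 * M).natAbs = 2 ^ 2 * M.natAbs := by omega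
      have e6 : (2 ^ 2 * M.natAbs).primeFactors = insert 2 M.natAbs.primeFactors := by
        rw [Nat.primeFactors_mul (by norm_num) hN0,
          Nat.primeFactors_prime_pow (by norm_num) Nat.prime_two]
        rfl
      have e7 : dl (4 * M) = -4 := by
        unfold dl
        rw [if_pos]
        omega
      rw [e5, e6, e7, kr_iff_gd (Or.inl rfl) fun p h => ⟨(hp p h).1, (hp p h).2.1⟩]
      unfold tb
      rw [if_pos rfl]
    · have hev : ∃ N : ℕ, M.natAbs = 2 * N := ⟨M.natAbs / 2, by omega⟩
      obtain ⟨N, hN⟩ := hev
      have hNo : N % 2 = 1 := by omega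
      have hN0 : N ≠ 0 := by omega
      have hsN : Squarefree N := by
        rw [hN] at hsn
        exact Squarefree.of_mul_right hsn
      have hp : ∀ p ∈ N.primeFactors, p.Prime ∧ p ≠ 2 := by
        intro p hp
        have hd := Nat.dvd_of_mem_primeFactors hp
        refine ⟨Nat.prime_of_mem_primeFactors hp, ?_⟩
        rintro rfl
        omega
      have h2 : 2 ∉ N.primeFactors := fun h => (hp 2 h).2 rfl
      have e1 : M.natAbs.primeFactors = insert 2 N.primeFactors := by
        rw [hN, Nat.primeFactors_mul (by norm_num) hN0, Nat.Prime.primeFactors Nat.prime_two]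
        rfl
      have e2 : ∏ p ∈ insert 2 N.primeFactors, p = M.natAbs := by
        rw [← e1]
        exact Nat.prod_primeFactors_of_squarefree hsn
      rw [e1, nx2 h2 (by rw [e2]; omega), cnt h2 fun h => absurd h one_ne_zero]
      unfold KrF
      have e5 : (4 * M).natAbs = 2 ^ 3 * N := by omega
      have e6 : (2 ^ 3 * N).primeFactors = insert 2 N.primeFactors := by
        rw [Nat.primeFactors_mul (by norm_num) hN0,
          Nat.primeFactors_prime_pow (by norm_num) Nat.prime_two]
        rfl
      have e7 : dl (4 * M) = 8 ∨ dl (4 * M) = -8 := by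
        unfold dl
        rw [if_neg (by omega)]
        split_ifs
        · exact Or.inl rfl
        · exact Or.inr rfl
      rw [e5, e6, kr_iff_gd (Or.inr e7) hp]
      unfold tb
      rw [if_neg]
      rcases e7 with e7 | e7 <;> rw [e7] <;> norm_num

end Pool.Agent.NH4.XH
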