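import Pool.Agent.NH4.XH.Main
import Pool.Agent.NH4.XH.KR
import Pool.Agent.NH4.XG.Fin
import Pool.Agent.XW.Fin

/-!
# Project XH: the input on the elliptic curves, unconditionally
-/

set_option autoImplicit false

namespace Pool.Agent.NH4.XH

open Pool.Agent.XV.T (RZ)
open Pool.Agent.XW.F (sqf all_out)

theorem sqf_dsc {M : ℤ} (h : DB M) : sqf (dsc M) = M := by
  have h4 : M % 4 ≠ 0 := by
    intro h0
    have h1 : (2 : ℤ) * 2 ∣ M := by omega
    have h2 := h.2.1 2 h1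
    rw [Int.isUnit_iff] at h2
    omega
  unfold sqf dsc
  split_ifs <;> omega

/-- **the input on the elliptic curves** -/
theorem f_HOUT : S_HOUT := by
  intro M hM
  obtain ⟨h1, h2⟩ := t_HKR M hM
  obtain ⟨g1, -, g3⟩ := all_out h1
  rw [sqf_dsc hM] at g1 g3
  exact ⟨g1.trans h2.symm, g3⟩

/-- the class group -/
theorem rz_noFour {M : ℤ} (hM : DB M) : RZ M ↔ XR.NoFour M := by
  obtain ⟨h1, h2⟩ := t_HKR M hM
  obtain ⟨g1, g2, -⟩ := all_out h1
  rw [sqf_dsc hM] at g1 g2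
  exact g1.trans g2

end Pool.Agent.NH4.XH
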