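import Pool.Agent.NH4.XG.Stm
import Pool.Agent.NH3.XE.Num
import Pool.Agent.XV.T.Out

/-!
# Project XH (helper4): the twists of `X_0(15)` by all imaginary quadratic fields in which `3` splits and `5`
is inert, over real multiquadratic fields: the interface
-/

set_option autoImplicit false

open scoped Classical

namespace Pool.Agent.NH4.XH

open Finset
open Pool.Agent.NH4.XG (nx)
open Pool.Agent.XV.T (RZ)
open Pool.Agent.Y687 (RankBSD)
open Pool.Agent.NH3.XE (FD KrF)

/-- the squarefree numbers `M < 0` such that `3` splits and `5` is inert in `ℚ(√M)` -/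
def DB (M : ℤ) : Prop := M < 0 ∧ Squarefree M ∧ M % 3 = 1 ∧ (M % 5 = 2 ∨ M % 5 = 3)

/-- the squarefree numbers `D > 0` such that `3` and `5` split in `ℚ(√D)` (or `D = 1`) -/
def DA (D : ℤ) : Prop := 0 < D ∧ Squarefree D ∧ D % 3 = 1 ∧ (D % 5 = 1 ∨ D % 5 = 4)

/-- the discriminant of `ℚ(√M)` -/
def dsc (M : ℤ) : ℤ := if M % 4 = 1 then M else 4 * M

/-- KR: the kernel of the Redei matrix (`nx`) in terms of the condition `KrF` of the projects XE and XW -/
def S_HKR : Prop := ∀ M : ℤ, DB M → (FD (dsc M) ∧ (nx M.natAbs.primeFactors = 2 ↔ KrF (dsc M)))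

/-- the input on the elliptic curves: the criterion and the rank form of the conjecture -/
def S_HOUT : Prop := ∀ M : ℤ, DB M → (RZ M ↔ nx M.natAbs.primeFactors = 2) ∧
  (RZ M → RankBSD (-12987 * M ^ 2) (-263466 * M ^ 3))

end Pool.Agent.NH4.XH
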