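import Pool.Agent.NH4.XH.Sq

/-!
# Multiquadratic fields and the twists of `X_0(15)`: twists and extensions
-/

set_option autoImplicit false
set_option linter.style.haveILetI false
set_option linter.unusedVariables false

open scoped Classical

namespace Pool.Agent.NH4.XH

open Finset
open Pool.Agent.NH4.PF (sqf_unique isSquare_of_mul Ind pf div_sq)

/-- class `a` up to squares -/
def IsA (N : ℤ) : Prop := ∃ D k : ℤ, DA D ∧ k ≠ 0 ∧ N = D * k ^ 2

theorem da_set {D : ℤ} (h : DA D) : Pm (pf D) ∧ D = pz (pf D) ∧ (∏ p ∈ pf D, p) % 15 ∈ cA := by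
  obtain ⟨h1, h2, h3⟩ := h
  have hs : Squarefree D.natAbs := Int.squarefree_natAbs.2 h2
  have e1 : ∏ p ∈ pf D, p = D.natAbs := Nat.prod_primeFactors_of_squarefree hs
  have e2 : D.natAbs % 15 = 1 ∨ D.natAbs % 15 = 4 := by omega
  have hc : Nat.Coprime D.natAbs 15 := by
    rw [← cop_mod]
    rcases e2 with h | h <;> rw [h] <;> decide
  refine ⟨pm_of hc, ?_, ?_⟩
  · unfold pz
    rw [e1]
    omega
  · rw [e1, mem_cA]
    exact e2

theorem set_da {S : Finset ℕ} (hS : Pm S) (h : (∏ p ∈ S, p) % 15 ∈ cA) : DA (pz S) := by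
  have h1 := hS.pz_pos
  rw [mem_cA] at h
  unfold pz at h1
  refine ⟨h1, hS.pz_sqf, ?_, ?_⟩ <;> unfold pz <;> omega

theorem IsA.set {N : ℤ} (h : IsA N) : ∃ S, Pm S ∧ (∏ p ∈ S, p) % 15 ∈ cA ∧
    ∃ k : ℤ, k ≠ 0 ∧ N = pz S * k ^ 2 := by
  obtain ⟨D, k, h1, h2, h3⟩ := h
  obtain ⟨g1, g2, g3⟩ := da_set h1
  exact ⟨pf D, g1, g3, k, h2, by rw [← g2]; exact h3⟩

theorem UpB.set {P : Finset ℕ → Prop} {N : ℤ} (h : UpB P N) : ∃ S, Pm S ∧
    (∏ p ∈ S, p) % 15 ∈ cB ∧ P S ∧ ∃ k : ℤ, k ≠ 0 ∧ N = -pz S * k ^ 2 := by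
  obtain ⟨D, k, h1, h2, h3, h4⟩ := h
  obtain ⟨g1, g2, g3⟩ := db_set h1
  exact ⟨pf D, g1, g3, h2, k, h3, by rw [← g2]; exact h4⟩

/-- multiplication by a square does not change the class -/
theorem sq_cA : ∀ x c : Fin 15, Nat.Coprime c.1 15 →
    ((x.1 * c.1 ^ 2) % 15 ∈ cA ↔ x.1 ∈ cA) := by
  decide

theorem sq_cA' (x c : ℕ) (hc : Nat.Coprime c 15) : ((x * c ^ 2) % 15 ∈ cA ↔ x % 15 ∈ cA) := by
  have h := sq_cA ⟨x % 15, Nat.mod_lt _ (by norm_num)⟩ ⟨c % 15, Nat.mod_lt _ (by norm_num)⟩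
    ((cop_mod c 15).2 hc)
  have e : (x * c ^ 2) % 15 = (x % 15 * (c % 15) ^ 2) % 15 := by
    rw [Nat.mul_mod, Nat.pow_mod, Nat.mul_mod (x % 15), Nat.mod_mod, ← Nat.pow_mod, Nat.pow_mod c]
    simp [Nat.pow_mod]
  rw [e]
  exact h

theorem symm_cA {S T : Finset ℕ} (hS : Pm S) : ((∏ p ∈ symmDiff S T, p) % 15 ∈ cA ↔
    ((∏ p ∈ S, p) * ∏ p ∈ T, p) % 15 ∈ cA) := by
  rw [prod_symm_nat, sq_cA' _ _ (hS.mono Finset.inter_subset_left).cop]

theorem mul_cA {x y : ℕ} (hx : x % 15 ∈ cA) (hy : y % 15 ∈ cA) : (x * y) % 15 ∈ cA := by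
  rw [mem_cA] at hx hy ⊢
  rw [Nat.mul_mod]
  rcases hx with h | h <;> rcases hy with h' | h' <;> rw [h, h'] <;> norm_num

theorem mul_cB {x y : ℕ} (hx : x % 15 ∈ cB) (hy : y % 15 ∈ cA) : (x * y) % 15 ∈ cB := by
  rw [mem_cA] at hy
  rw [mem_cB] at hx ⊢
  rw [Nat.mul_mod]
  rcases hx with h | h <;> rcases hy with h' | h' <;> rw [h, h'] <;> norm_num

theorem mul_cBB {x y : ℕ} (hx : x % 15 ∈ cB) (hy : y % 15 ∈ cB) : (x * y) % 15 ∈ cA := by
  rw [mem_cB] at hx hy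
  rw [mem_cA, Nat.mul_mod]
  rcases hx with h | h <;> rcases hy with h' | h' <;> rw [h, h'] <;> norm_num

theorem isA_one : IsA 1 := ⟨1, 1, ⟨by norm_num, squarefree_one, by norm_num, by norm_num⟩, one_ne_zero,
  by norm_num⟩

theorem IsA.mul {N N' : ℤ} (h : IsA N) (h' : IsA N') : IsA (N * N') := by
  obtain ⟨S, h1, h2, k, hk, e⟩ := h.set
  obtain ⟨S', h1', h2', k', hk', e'⟩ := h'.set
  refine ⟨pz (symmDiff S S'), pz (S ∩ S') * k * k', set_da (h1.symmDiff h1')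
    ((symm_cA h1).2 (mul_cA h2 h2')), mul_ne_zero (mul_ne_zero
      (h1.mono Finset.inter_subset_left).pz_ne hk) hk', ?_⟩
  have h3 := pz_mul S S'
  rw [e, e']
  linear_combination (k ^ 2 * k' ^ 2) * h3

theorem isA_prod {n : ℕ} {d : Fin n → ℤ} (h : ∀ i, IsA (d i)) (T : Finset (Fin n)) :
    IsA (∏ i ∈ T, d i) := by
  induction T using Finset.induction_on with
  | empty =>
    rw [Finset.prod_empty]
    exact isA_one
  | insert i T hi ih =>
    rw [Finset.prod_insert hi]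
    exact (h i).mul ih

theorem UpB.mul_A {P : Finset ℕ → Prop} {N N' : ℤ} (h : UpB P N) (h' : IsA N') :
    UpB (fun _ => True) (N * N') := by
  obtain ⟨S, h1, h2, -, k, hk, e⟩ := h.set
  obtain ⟨S', h1', h2', k', hk', e'⟩ := h'.set
  refine (upB_iff (h1.symmDiff h1') (k := pz (S ∩ S') * k * k') (mul_ne_zero (mul_ne_zero
    (h1.mono Finset.inter_subset_left).pz_ne hk) hk') ?_).2
      ⟨(symm_cB h1).2 (mul_cB h2 h2'), trivial⟩
  have h3 := pz_mul S S'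
  rw [e, e']
  linear_combination (-(k ^ 2 * k' ^ 2)) * h3

/-- the quotient of two numbers of the class `b` is of class `a` -/
theorem UpB.div {P Q : Finset ℕ → Prop} {N x : ℤ} (h : UpB P N) (h' : UpB Q (N * x)) : IsA x := by
  obtain ⟨S, h1, h2, -, k, hk, e⟩ := h.set
  obtain ⟨S', h1', h2', -, k', hk', e'⟩ := h'.set
  have h3 := pz_mul S' S
  obtain ⟨w, hw, e2⟩ := div_sq (A := x) (E := pz (symmDiff S' S)) (x := pz S * k)
    (y := pz (S' ∩ S) * k') (h1'.symmDiff h1).pz_sqf (mul_ne_zero h1.pz_ne hk)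
    (mul_ne_zero (h1'.mono Finset.inter_subset_left).pz_ne hk') (by
      rw [e] at e'
      linear_combination (-pz S) * e' + k' ^ 2 * h3)
  exact ⟨pz (symmDiff S' S), w, set_da (h1'.symmDiff h1) ((symm_cA h1').2 (mul_cBB h2' h2)), hw, e2⟩

theorem okR_cB : OkR cB := ⟨⟨2, by decide⟩, by decide⟩

theorem okR_cA : OkR cA := ⟨⟨1, by decide⟩, by decide⟩

theorem tab_A : ∀ u ∈ cA, ∀ r < 15, ((r * u) % 15 ∈ cB ↔ r ∈ cB) := by decide

theorem tab_B : ∀ u ∈ cB, ∀ r < 15, ((r * u) % 15 ∈ cB ↔ r ∈ cA) := by decide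

/-- the event -/
def Rk (r : ℕ) (S : Finset ℕ) : Prop := XG.nx S = 2 ^ (r + 1)

/-- **the law for the twists** -/
theorem law_twists (hJ : XG.S_XGDEN) {ι : Type} [Fintype ι] [Nonempty ι] {g : ι → ℤ}
    (hg : ∀ t, IsA (g t)) (hns : ∀ t t', t ≠ t' → ¬ IsSquare (g t * g t')) (rr : ι → ℕ) :
    Filter.Tendsto (fun X : ℕ =>
      (((Icc 1 X).filter fun D : ℕ => Squarefree D ∧
        PG (fun t => Rk (rr t)) g (-(D : ℤ))).card : ℝ) /
        (((Icc 1 X).filter fun D : ℕ => Squarefree D ∧ D % 15 ∈ cB).card : ℝ))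
      Filter.atTop (nhds (∏ t, PJ.law 0 (rr t))) := by
  choose U h1 h2 k hk e using fun t => (hg t).set
  have h := law_G hJ (g := g) (N0 := -1) (by norm_num) tab_A okR_cB hns (U := U)
    (fun t => ⟨h1 t, h2 t, k t, hk t, by rw [e t]; ring⟩) rr
  refine h.congr fun X => ?_
  congr 2
  refine NH3.XD.card_iff fun D _ => and_congr_right fun _ => ?_
  rw [neg_one_mul]
  exact Iff.rfl

/-- **the law for the extensions** -/
theorem law_ext (hJ : XG.S_XGDEN) {ι : Type} [Fintype ι] [Nonempty ι] {g : ι → ℤ} {M : ℤ}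
    {P : ι → Finset ℕ → Prop} (hM : PG P g M)
    (hns : ∀ t t', t ≠ t' → ¬ IsSquare (g t * g t')) (rr : ι → ℕ) :
    Filter.Tendsto (fun X : ℕ =>
      (((Icc 1 X).filter fun D : ℕ => Squarefree D ∧
        PG (fun t => Rk (rr t)) g (M * D)).card : ℝ) /
        (((Icc 1 X).filter fun D : ℕ => Squarefree D ∧ D % 15 ∈ cA).card : ℝ))
      Filter.atTop (nhds (∏ t, PJ.law 0 (rr t))) := by
  choose U h1 h2 _ k hk e using fun t => (hM t).set
  have hM0 : M ≠ 0 := by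
    obtain ⟨t₀⟩ := ‹Nonempty ι›
    rintro rfl
    have := e t₀
    rw [zero_mul] at this
    exact mul_ne_zero (neg_ne_zero.2 (h1 t₀).pz_ne) (pow_ne_zero 2 (hk t₀)) this.symm
  have h := law_G hJ (g := g) (N0 := M) hM0 tab_B okR_cA hns (U := U)
    (fun t => ⟨h1 t, h2 t, k t, hk t, e t⟩) rr
  exact h

/-! ### Fields -/

/-- the products of the `d_i` -/
def gT {n : ℕ} (d : Fin n → ℤ) (T : Finset (Fin n)) : ℤ := ∏ i ∈ T, d i

theorem gT_ns {n : ℕ} {d : Fin n → ℤ} (hd : Ind d) (T T' : Finset (Fin n)) (hne : T ≠ T') :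
    ¬ IsSquare (gT d T * gT d T') := by
  intro hsq
  have hne' : (symmDiff T T').Nonempty := by
    rw [Finset.nonempty_iff_ne_empty]
    intro h
    exact hne (symmDiff_eq_bot.1 h)
  have h0 : ∀ i, d i ≠ 0 := by
    intro i h0
    refine hd {i} (Finset.singleton_nonempty i) ?_
    rw [Finset.prod_singleton, h0]
    exact ⟨0, by ring⟩
  obtain ⟨r, hr⟩ := hsq
  refine hd _ hne' (isSquare_of_mul (y := ∏ i ∈ T ∩ T', d i) (z := r)
    (Finset.prod_ne_zero_iff.2 fun i _ => h0 i) ?_)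
  have h3 := PF.prod_symmDiff d T T'
  unfold gT at hr
  rw [← h3, hr]
  ring

/-- the good sets -/
def Gs (S : Finset ℕ) : Prop := Rk 0 S

end Pool.Agent.NH4.XH
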