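import Pool.Agent.NH4.XH.Den

/-!
# The joint law of the Redei matrices of the twists by a finite set of numbers
-/

set_option autoImplicit false
set_option linter.style.haveILetI false
set_option linter.unusedVariables false

open scoped Classical

namespace Pool.Agent.NH4.XH

open Finset
open Pool.Agent.NH4.PF (WU sub_WU symm_split symm_sub ratio_sum)
open Pool.Agent.NH4.PJ (law LawP)
open Pool.Agent.NH4.XJ (OkJ)
open Pool.Agent.NH4.XG (OkG Ev S_XGDEN)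
open Pool.Agent.NH5.PR (eta)

theorem prod_symm_nat (S T : Finset ℕ) :
    (∏ p ∈ S, p) * ∏ p ∈ T, p = (∏ p ∈ symmDiff S T, p) * (∏ p ∈ S ∩ T, p) ^ 2 := by
  have h := PF.prod_symmDiff (fun p : ℕ => (p : ℤ)) S T
  apply Nat.cast_injective (R := ℤ)
  push_cast
  exact h

/-- the classes modulo `15` -/
def OkR (R0 : Finset ℕ) : Prop := R0.Nonempty ∧ ∀ r ∈ R0, r < 15 ∧ Nat.Coprime r 15

variable {M : ℕ}

theorem ok_idx {R0 : Finset ℕ} {U : Fin M → Finset ℕ} (hU : ∀ t, Pm (U t))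
    {z : Finset ℕ × ℕ} (hz : z ∈ Idx R0 U) : OkJ (md U) z.2 := by
  obtain ⟨hz1, hz2, hz3⟩ := Finset.mem_filter.1 hz
  obtain ⟨he, hr⟩ := Finset.mem_product.1 hz1
  exact ⟨Nat.mul_pos (by norm_num) (pm_W2 hU).pos, Dvd.dvd.mul_right (by norm_num) _,
    Finset.mem_range.1 hr, hz2⟩

theorem okM_idx {R0 : Finset ℕ} {U : Fin M → Finset ℕ} (hU : ∀ t, Pm (U t))
    (hinj : Function.Injective U) {z : Finset ℕ × ℕ} (hz : z ∈ Idx R0 U) :
    OkG (md U) (fun t => symmDiff z.1 (U t)) := by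
  obtain ⟨hz1, hz2, hz3⟩ := Finset.mem_filter.1 hz
  obtain ⟨he, hr⟩ := Finset.mem_product.1 hz1
  rw [Finset.mem_powerset] at he
  refine ⟨fun t t' h => hinj (symmDiff_right_injective _ h), fun t u hu => ?_⟩
  have h1 : u ∈ W2 U := symm_sub he (sub_W2 U t) hu
  have h2 := pm_W2 hU u h1
  exact ⟨h2.1, Dvd.dvd.mul_left (Finset.dvd_prod_of_mem (fun p => p) h1) 60⟩

/-- the class is large -/
theorem low_R {R0 : Finset ℕ} (hR : OkR R0) : ∃ (c : ℝ) (X₀ : ℕ), 0 < c ∧ ∀ X : ℕ, X₀ ≤ X →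
    c * X ≤ (((Icc 1 X).filter fun D => Squarefree D ∧ D % 15 ∈ R0).card : ℝ) := by
  obtain ⟨⟨r, hr⟩, h⟩ := hR
  obtain ⟨r', h1, h2, h3⟩ : ∃ r', r' < 60 ∧ Nat.Coprime r' 60 ∧ r' % 15 = r := by
    have key : ∀ r < 15, Nat.Coprime r 15 → ∃ r' < 60, Nat.Coprime r' 60 ∧ r' % 15 = r := by decide
    obtain ⟨r', g1, g2, g3⟩ := key r (h r hr).1 (h r hr).2
    exact ⟨r', g1, g2, g3⟩
  have hO : OkJ 60 r' := ⟨by norm_num, by norm_num, h1, h2⟩
  obtain ⟨c, X₀, hc, g⟩ := XJ.t_XJLOW 60 r' hO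
  refine ⟨c, X₀, hc, fun X hX => (g X hX).trans ?_⟩
  have e2 := NH3.XD.LowX.card_eq 60 r' hO.2.2.2 X (fun _ => True)
  rw [Finset.filter_true] at e2
  simp only [and_true] at e2
  rw [← e2]
  refine Nat.cast_le.2 (Finset.card_le_card fun D hD => ?_)
  obtain ⟨g1, g2, g3⟩ := Finset.mem_filter.1 hD
  refine Finset.mem_filter.2 ⟨g1, g2, ?_⟩
  have e : D % 15 = r := by
    rw [← Nat.mod_mod_of_dvd D (by norm_num : 15 ∣ 60), g3, h3]
  rw [e]
  exact hr

/-- a trivial condition -/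
def TrF (_ : Fin M) (_ : Finset ℕ) : Prop := True

/-- **the joint law** -/
theorem joint (hJ : S_XGDEN) {R0 : Finset ℕ} (hR : OkR R0) {U : Fin M → Finset ℕ}
    (hU : ∀ t, Pm (U t)) (hinj : Function.Injective U) (rr : Fin M → ℕ) :
    Filter.Tendsto (fun X : ℕ =>
      (((Icc 1 X).filter fun D => Squarefree D ∧ D % 15 ∈ R0 ∧
        ∀ t, XG.nx (symmDiff D.primeFactors (U t)) = 2 ^ (rr t + 1)).card : ℝ) /
        (((Icc 1 X).filter fun D => Squarefree D ∧ D % 15 ∈ R0).card : ℝ))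
      Filter.atTop (nhds (∏ t, law 0 (rr t))) := by
  have hR0 : ∀ r ∈ R0, Nat.Coprime r 15 := fun r hr => (hR.2 r hr).2
  set Nz : Finset ℕ × ℕ → ℕ → ℕ := fun z X => ((Icc 1 (X / ∏ p ∈ z.1, p)).filter fun D =>
    Squarefree D ∧ D % md U = z.2).card with hNz
  set Gz : Finset ℕ × ℕ → ℕ → ℕ := fun z X => ((Icc 1 (X / ∏ p ∈ z.1, p)).filter fun D =>
    Squarefree D ∧ D % md U = z.2 ∧
      Ev (fun t => symmDiff z.1 (U t)) rr D.primeFactors).card with hGz
  have hN : ∀ X, ((Icc 1 X).filter fun D => Squarefree D ∧ D % 15 ∈ R0).card =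
      ∑ z ∈ Idx R0 U, Nz z X := by
    intro X
    have h := card_split hR0 hU TrF X
    refine Eq.trans (congrArg Finset.card (Finset.filter_congr fun D _ => ?_)) (h.trans ?_)
    · exact ⟨fun h => ⟨h.1, h.2, fun _ => trivial⟩, fun h => ⟨h.1, h.2.1⟩⟩
    refine Finset.sum_congr rfl fun z _ => ?_
    rw [hNz]
    refine congrArg Finset.card (Finset.filter_congr fun D _ => ?_)
    exact ⟨fun h => ⟨h.1, h.2.1⟩, fun h => ⟨h.1, h.2, fun _ => trivial⟩⟩
  have hG : ∀ X, ((Icc 1 X).filter fun D => Squarefree D ∧ D % 15 ∈ R0 ∧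
      ∀ t, XG.nx (symmDiff D.primeFactors (U t)) = 2 ^ (rr t + 1)).card =
      ∑ z ∈ Idx R0 U, Gz z X := by
    intro X
    have h := card_split hR0 hU (fun t S => XG.nx S = 2 ^ (rr t + 1)) X
    refine (NH3.XD.card_iff fun D _ => Iff.rfl).trans (h.trans ?_)
    refine Finset.sum_congr rfl fun z _ => ?_
    rw [hGz]
    exact NH3.XD.card_iff fun D _ => Iff.rfl
  have hmain := ratio_sum (Idx R0 U) Gz Nz (∏ t, law 0 (rr t)) ?_ ?_ ?_
  · refine hmain.congr fun X => ?_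
    rw [hN X, hG X]
  · intro z hz X
    refine Finset.card_le_card fun D hD => ?_
    obtain ⟨h1, h2, h3, h4⟩ := Finset.mem_filter.1 hD
    exact Finset.mem_filter.2 ⟨h1, h2, h3⟩
  · intro z hz
    have h1 := hJ M (md U) z.2 (fun t => symmDiff z.1 (U t)) rr (ok_idx hU hz)
      (okM_idx hU hinj hz)
    have hapos : 0 < ∏ p ∈ z.1, p := ((pm_W2 hU).mono (Finset.mem_powerset.1
      (Finset.mem_product.1 (Finset.mem_filter.1 hz).1).1)).pos
    exact h1.comp (Nat.tendsto_div_const_atTop hapos.ne')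
  · obtain ⟨c, X₀, hc, hX⟩ := low_R hR
    filter_upwards [Filter.eventually_ge_atTop (max X₀ 1)] with X hX1
    have h1 := hX X (le_trans (le_max_left _ _) hX1)
    have h2 : 1 ≤ X := le_trans (le_max_right _ _) hX1
    have h3 : (0 : ℝ) < X := by exact_mod_cast h2
    have h4 : 0 < c * X := mul_pos hc h3
    rw [hN X] at h1
    exact_mod_cast lt_of_lt_of_le h4 h1

end Pool.Agent.NH4.XH
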