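import Pool.Agent.NH4.XH.Fld
import Pool.Agent.NH4.XF.JQ

/-!
# Multiquadratic fields and the twists of `X_0(15)`: the parts of the main theorem
-/

set_option autoImplicit false
set_option linter.style.haveILetI false

open scoped Classical

namespace Pool.Agent.NH4.XH

open Finset Filter Topology
open Pool.Agent.NH4.PF (Ind pf sqf_unique)
open Pool.Agent.NH5.PR (eta)
open Pool.Agent.XV.T (RZ)
open Pool.Agent.Y687 (RankBSD)
open Pool.Agent.Y687.MQ (ZB ZB_scale mq_zero disc_ne finrank_EQ_zero)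
open Pool.Agent.Y19.QT (EK IsLFunK IsLFun)
open Pool.Agent.NH4.XF (cn cn_congr cn_eq cn_mono cn_exc cn_zero cz cz_split cz_all cz_neg cz_pos gT
  gT_ns exc dens_all prod_eta rz_scale)

/-- the `L`-function and the points -/
theorem zb_of (h : S_HOUT) {D : ℤ} (hD : DB D) (hz : RZ D) :
    ZB (-12987 * D ^ 2) (-263466 * D ^ 3) := by
  obtain ⟨F, hF, hFp, hF1, -⟩ := (h D hD).2 hz
  refine ⟨⟨F, ⟨hF, hFp⟩, hF1⟩, NH5.LK.finite_pts ?_ hz.1⟩
  exact disc_ne (by norm_num) hD.1.ne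

theorem gs_iff (h : S_HOUT) {D : ℤ} (hD : DB D) : RZ D ↔ Gs (pf D) := (h D hD).1

/-- the good numbers -/
theorem upB_good (h : S_HOUT) {N : ℤ} : UpB Gs N ↔
    ∃ D k : ℤ, (DB D ∧ RZ D) ∧ k ≠ 0 ∧ N = D * k ^ 2 := by
  constructor
  · rintro ⟨D, k, h1, h2, h3, h4⟩
    exact ⟨D, k, ⟨h1, (gs_iff h h1).2 h2⟩, h3, h4⟩
  · rintro ⟨D, k, ⟨h1, h2⟩, h3, h4⟩
    exact ⟨D, k, h1, (gs_iff h h1).1 h2, h3, h4⟩

/-- **the theorem over multiquadratic fields** -/
theorem field_zero (h : S_HOUT) {n : ℕ} {M : ℤ} {d : Fin n → ℤ}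
    (hP : PG (fun _ => Gs) (gT d) M) (hind : Ind d) (K : Type)
    [Field K] [NumberField K] (x : Fin n → K) (hx : ∀ i, x i ^ 2 = (d i : K))
    (hK : IntermediateField.adjoin ℚ (Set.range x) = ⊤) :
    (∃ F : ℂ → ℂ, IsLFunK K (-12987 * M ^ 2) (-263466 * M ^ 3) (∏ i, d i) F ∧ F 1 ≠ 0) ∧
      Finite (EK K (-12987 * M ^ 2) (-263466 * M ^ 3)) := by
  have hab : (4 * (-12987) ^ 3 + 27 * (-263466) ^ 2 : ℤ) ≠ 0 := by norm_num
  have hM : M ≠ 0 := by
    obtain ⟨D, k, h1, -, h2, h3⟩ := hP ∅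
    unfold gT at h3
    rw [Finset.prod_empty, mul_one] at h3
    rw [h3]
    exact mul_ne_zero h1.1.ne (pow_ne_zero 2 h2)
  refine mq_zero hind (disc_ne hab hM) ?_ K x hx hK
  intro S
  obtain ⟨D, k, h1, h2, h3, h4⟩ := hP S
  have e1 : -12987 * M ^ 2 * (∏ i ∈ S, d i) ^ 2 = -12987 * (D * k ^ 2) ^ 2 := by
    rw [← h4]; unfold gT; ring
  have e2 : -263466 * M ^ 3 * (∏ i ∈ S, d i) ^ 3 = -263466 * (D * k ^ 2) ^ 3 := by
    rw [← h4]; unfold gT; ring
  rw [e1, e2]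
  exact ZB_scale hab h1.1.ne h3 (zb_of h h1 ((gs_iff h h1).2 h2))

/-! ### densities -/

theorem dens_15 : NH3.XD.dens 15 = 5 / 64 * (6 / Real.pi ^ 2) := by
  have e : (15 : ℕ).primeFactors = {3, 5} := by decide +kernel
  unfold NH3.XD.dens
  rw [e]
  rw [Finset.prod_insert (by decide), Finset.prod_singleton]
  push_cast
  ring

theorem dens_R {a b : ℕ} (ha : a < 15) (hb : b < 15) (hca : Nat.Coprime a 15)
    (hcb : Nat.Coprime b 15) (hab : a ≠ b) :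
    Tendsto (fun X : ℕ => cn (fun D => D % 15 ∈ ({a, b} : Finset ℕ)) X / X) atTop
      (𝓝 (2 * (5 / 64 * (6 / Real.pi ^ 2)))) := by
  have h1 := NH3.XD.t_SQF 15 a (by norm_num) hca
  have h2 := NH3.XD.t_SQF 15 b (by norm_num) hcb
  rw [dens_15] at h1 h2
  have h3 := h1.add h2
  rw [← two_mul] at h3
  refine h3.congr fun X => ?_
  rw [← add_div]
  congr 1
  unfold cn
  rw [← Nat.cast_add]
  congr 1
  rw [← Finset.card_union_of_disjoint]
  · congr 1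
    ext D
    simp only [Finset.mem_union, Finset.mem_filter, Finset.mem_insert, Finset.mem_singleton,
      Nat.mod_eq_of_lt ha, Nat.mod_eq_of_lt hb]
    tauto
  · rw [Finset.disjoint_left]
    intro D hD hD'
    have g1 := (Finset.mem_filter.1 hD).2.2
    have g2 := (Finset.mem_filter.1 hD').2.2
    rw [g1, Nat.mod_eq_of_lt ha, Nat.mod_eq_of_lt hb] at g2
    exact hab g2

/-- the proportion in the class and among all squarefree numbers of both signs -/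
theorem two_forms {R0 : Finset ℕ} (hR : Tendsto (fun X : ℕ => cn (fun D => D % 15 ∈ R0) X / X) atTop
      (𝓝 (2 * (5 / 64 * (6 / Real.pi ^ 2))))) {P : ℕ → Prop} {c : ℝ}
    (h : Tendsto (fun X : ℕ => cn P X / cn (fun D => D % 15 ∈ R0) X) atTop (𝓝 c)) :
    Tendsto (fun X : ℕ => cn P X / (2 * cn (fun _ => True) X)) atTop (𝓝 (5 / 64 * c)) := by
  have hpi : (0 : ℝ) < Real.pi ^ 2 := by positivity
  have h1 := (h.mul hR).div (dens_all.const_mul 2) (by positivity)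
  have e : c * (2 * (5 / 64 * (6 / Real.pi ^ 2))) / (2 * (6 / Real.pi ^ 2)) = 5 / 64 * c := by
    field_simp
  rw [e] at h1
  have h0 : (0 : ℝ) < 2 * (5 / 64 * (6 / Real.pi ^ 2)) := by positivity
  refine h1.congr' ?_
  filter_upwards [hR.eventually_const_lt h0, eventually_gt_atTop 0] with X g1 g2
  have g3 : (0 : ℝ) < X := by exact_mod_cast g2
  have g4 : 0 < cn (fun D => D % 15 ∈ R0) X := by
    by_contra hcon
    exact absurd g1 (not_lt.2 (div_nonpos_of_nonpos_of_nonneg (not_lt.1 hcon) g3.le))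
  show cn P X / cn (fun D => D % 15 ∈ R0) X * (cn (fun D => D % 15 ∈ R0) X / X) /
    (2 * (cn (fun _ => True) X / X)) = _
  rw [div_mul_div_cancel₀ g4.ne', mul_div_assoc', div_div_div_cancel_right₀ g3.ne']

theorem dens_cB : Tendsto (fun X : ℕ => cn (fun D => D % 15 ∈ cB) X / X) atTop
      (𝓝 (2 * (5 / 64 * (6 / Real.pi ^ 2)))) :=
  dens_R (by norm_num) (by norm_num) (by norm_num) (by norm_num) (by norm_num)

theorem dens_cA : Tendsto (fun X : ℕ => cn (fun D => D % 15 ∈ cA) X / X) atTop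
      (𝓝 (2 * (5 / 64 * (6 / Real.pi ^ 2)))) :=
  dens_R (by norm_num) (by norm_num) (by norm_num) (by norm_num) (by norm_num)

/-! ### the proportions -/

/-- **the proportion of the twists** -/
theorem twists (hJ : XG.S_XGDEN) {n : ℕ} {d : Fin n → ℤ} (hd : Ind d) (hA : ∀ i, IsA (d i)) :
    Tendsto (fun X : ℕ => cn (fun D => PG (fun _ => Gs) (gT d) (-(D : ℤ))) X /
      cn (fun D => D % 15 ∈ cB) X) atTop (𝓝 (eta ^ 2 ^ n)) := by
  have h := law_twists hJ (g := gT d) (isA_prod hA) (gT_ns hd) (fun _ => 0)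
  rw [prod_eta] at h
  refine h.congr fun X => ?_
  show _ = cn (fun D => PG (fun _ => Rk 0) (gT d) (-(D : ℤ))) X / cn (fun D => D % 15 ∈ cB) X
  rw [← cn_eq, ← cn_eq]

theorem pg_snoc {P : Finset ℕ → Prop} {n : ℕ} (d : Fin n → ℤ) (M D : ℤ) :
    PG (fun _ => P) (gT (Fin.snoc d D : Fin (n + 1) → ℤ)) M ↔
      (PG (fun _ => P) (gT d) M ∧ PG (fun _ => P) (gT d) (M * D)) := by
  unfold PG gT
  rw [PF.prod_snoc_iff d D (fun z => UpB P (M * z))]
  simp only [mul_assoc]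

/-- **the proportion of the extensions** -/
theorem extensions (hJ : XG.S_XGDEN) {n : ℕ} {d : Fin n → ℤ} (hd : Ind d) {M : ℤ}
    (hM : PG (fun _ => Gs) (gT d) M) :
    Tendsto (fun X : ℕ => cn (fun D => Ind (Fin.snoc d (D : ℤ) : Fin (n + 1) → ℤ) ∧
        PG (fun _ => Gs) (gT (Fin.snoc d (D : ℤ) : Fin (n + 1) → ℤ)) M) X /
      cn (fun D => D % 15 ∈ cA) X) atTop (𝓝 (eta ^ 2 ^ n)) := by
  have h := law_ext hJ (g := gT d) (M := M) (P := fun _ => Gs) hM (gT_ns hd) (fun _ => 0)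
  rw [prod_eta] at h
  have h1 : Tendsto (fun X : ℕ => cn (fun D => PG (fun _ => Gs) (gT d) (M * D)) X /
      cn (fun D => D % 15 ∈ cA) X) atTop (𝓝 (eta ^ 2 ^ n)) := by
    refine h.congr fun X => ?_
    show _ = cn (fun D => PG (fun _ => Rk 0) (gT d) (M * D)) X / cn (fun D => D % 15 ∈ cA) X
    rw [← cn_eq, ← cn_eq]
  obtain ⟨E, hE⟩ := exc hd
  have hN : Tendsto (fun X : ℕ => cn (fun D => D % 15 ∈ cA) X) atTop atTop := by
    obtain ⟨c, X₀, hc, g⟩ := low_R okR_cA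
    refine tendsto_atTop_mono' _ ?_ ((tendsto_natCast_atTop_atTop (R := ℝ)).const_mul_atTop hc)
    filter_upwards [eventually_ge_atTop X₀] with X hX
    rw [← cn_eq]
    exact g X hX
  have hE0 : Tendsto (fun X : ℕ => (E.card : ℝ) / cn (fun D => D % 15 ∈ cA) X) atTop (𝓝 0) :=
    hN.const_div_atTop _
  refine tendsto_of_tendsto_of_tendsto_of_le_of_le (by simpa using h1.sub hE0) h1 ?_ ?_
  · intro X
    show cn (fun D => PG (fun _ => Gs) (gT d) (M * D)) X / cn (fun D => D % 15 ∈ cA) X -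
      (E.card : ℝ) / cn (fun D => D % 15 ∈ cA) X ≤ _
    rw [← sub_div]
    refine div_le_div_of_nonneg_right ?_ (Nat.cast_nonneg _)
    have := cn_exc (P := fun D : ℕ => Ind (Fin.snoc d (D : ℤ) : Fin (n + 1) → ℤ) ∧
        PG (fun _ => Gs) (gT (Fin.snoc d (D : ℤ) : Fin (n + 1) → ℤ)) M)
      (Q := fun D : ℕ => PG (fun _ => Gs) (gT d) (M * D)) E
      (fun D hs h2 h3 => ⟨hE D hs h3, (pg_snoc d M D).2 ⟨hM, h2⟩⟩) X
    linarith
  · intro X
    refine div_le_div_of_nonneg_right ?_ (Nat.cast_nonneg _)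
    exact cn_mono (fun D hs h2 => ((pg_snoc d M D).1 h2.2).2) X

/-! ### integers of both signs -/

/-- the class `b` -/
theorem cz_B (X : ℕ) : cz (fun M => M < 0 ∧ M % 3 = 1 ∧ (M % 5 = 2 ∨ M % 5 = 3)) X =
    cn (fun D => D % 15 ∈ cB) X := by
  rw [cz_split, cn_zero (P := fun D : ℕ => ((D : ℤ) < 0 ∧ (D : ℤ) % 3 = 1 ∧
      ((D : ℤ) % 5 = 2 ∨ (D : ℤ) % 5 = 3)))
    (fun D _ _ h => by omega), add_zero]
  refine cn_congr (fun D hD => ?_) X
  have h0 : D ≠ 0 := hD.ne_zero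
  rw [mem_cB]
  omega

/-- the class `a` -/
theorem cz_A (X : ℕ) : cz (fun M => 0 < M ∧ M % 3 = 1 ∧ (M % 5 = 1 ∨ M % 5 = 4)) X =
    cn (fun D => D % 15 ∈ cA) X := by
  rw [cz_split, cn_zero (P := fun D : ℕ => (0 < -(D : ℤ) ∧ -(D : ℤ) % 3 = 1 ∧
      (-(D : ℤ) % 5 = 1 ∨ -(D : ℤ) % 5 = 4)))
    (fun D _ _ h => by omega), zero_add]
  refine cn_congr (fun D hD => ?_) X
  have h0 : D ≠ 0 := hD.ne_zero
  rw [mem_cA]
  omega

/-- the twists are negative -/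
theorem pg_neg {P : Finset ℕ → Prop} {n : ℕ} {d : Fin n → ℤ} {M : ℤ}
    (h : PG (fun _ => P) (gT d) M) : M < 0 := by
  obtain ⟨D, k, h1, -, h2, h3⟩ := h ∅
  unfold gT at h3
  rw [Finset.prod_empty, mul_one] at h3
  rw [h3]
  have h4 : 0 < k ^ 2 := by positivity
  nlinarith [h1.1]

/-- the extensions are real -/
theorem isA_pos {x : ℤ} (h : IsA x) : 0 < x := by
  obtain ⟨D, k, h1, h2, rfl⟩ := h
  have h4 : 0 < k ^ 2 := by positivity
  exact mul_pos h1.1 h4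

theorem pg_pos {P : Finset ℕ → Prop} {n : ℕ} {d : Fin n → ℤ} {M D : ℤ}
    (h : PG (fun _ => P) (gT (Fin.snoc d D : Fin (n + 1) → ℤ)) M) : 0 < D := by
  obtain ⟨h1, h2⟩ := (pg_snoc d M D).1 h
  have h3 := h1 ∅
  have h4 := h2 ∅
  unfold gT at h3 h4
  rw [Finset.prod_empty, mul_one] at h3 h4
  exact isA_pos (h3.div h4)

/-- **the proportion of the twists** -/
theorem twists_z (hJ : XG.S_XGDEN) {n : ℕ} {d : Fin n → ℤ} (hd : Ind d) (hA : ∀ i, IsA (d i)) :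
    Tendsto (fun X : ℕ => cz (fun M => PG (fun _ => Gs) (gT d) M) X /
      cz (fun M => M < 0 ∧ M % 3 = 1 ∧ (M % 5 = 2 ∨ M % 5 = 3)) X) atTop (𝓝 (eta ^ 2 ^ n)) ∧
    Tendsto (fun X : ℕ => cz (fun M => PG (fun _ => Gs) (gT d) M) X /
      cz (fun _ => True) X) atTop (𝓝 (5 / 64 * eta ^ 2 ^ n)) := by
  have h1 := twists hJ hd hA
  have h2 := two_forms dens_cB h1
  have e : ∀ X : ℕ, cz (fun M => PG (fun _ => Gs) (gT d) M) X =
      cn (fun D => PG (fun _ => Gs) (gT d) (-(D : ℤ))) X := fun X =>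
    cz_neg (fun M hM _ h => absurd (pg_neg h) (by omega)) X
  simp only [e, cz_B, cz_all]
  exact ⟨h1, h2⟩

/-- **the proportion of the extensions** -/
theorem extensions_z (hJ : XG.S_XGDEN) {n : ℕ} {d : Fin n → ℤ} (hd : Ind d) {M : ℤ}
    (hM : PG (fun _ => Gs) (gT d) M) :
    Tendsto (fun X : ℕ => cz (fun D => Ind (Fin.snoc d D : Fin (n + 1) → ℤ) ∧
        PG (fun _ => Gs) (gT (Fin.snoc d D : Fin (n + 1) → ℤ)) M) X /
      cz (fun M => 0 < M ∧ M % 3 = 1 ∧ (M % 5 = 1 ∨ M % 5 = 4)) X) atTop (𝓝 (eta ^ 2 ^ n)) ∧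
    Tendsto (fun X : ℕ => cz (fun D => Ind (Fin.snoc d D : Fin (n + 1) → ℤ) ∧
        PG (fun _ => Gs) (gT (Fin.snoc d D : Fin (n + 1) → ℤ)) M) X /
      cz (fun _ => True) X) atTop (𝓝 (5 / 64 * eta ^ 2 ^ n)) := by
  have h1 := extensions hJ hd hM
  have h2 := two_forms dens_cA h1
  have e : ∀ X : ℕ, cz (fun D => Ind (Fin.snoc d D : Fin (n + 1) → ℤ) ∧
        PG (fun _ => Gs) (gT (Fin.snoc d D : Fin (n + 1) → ℤ)) M) X =
      cn (fun D => Ind (Fin.snoc d (D : ℤ) : Fin (n + 1) → ℤ) ∧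
        PG (fun _ => Gs) (gT (Fin.snoc d (D : ℤ) : Fin (n + 1) → ℤ)) M) X := fun X =>
    cz_pos (fun D hD _ h => absurd (pg_pos h.2) (by omega)) X
  simp only [e, cz_A, cz_all]
  exact ⟨h1, h2⟩

/-! ### the joint law over `ℚ` -/

theorem upB_ne {P : Finset ℕ → Prop} {N : ℤ} (h : UpB P N) : N ≠ 0 := by
  obtain ⟨D, k, h1, h2, h3, rfl⟩ := h
  exact mul_ne_zero h1.1.ne (pow_ne_zero 2 h3)

/-- the rank form for all representatives -/
theorem rank_of (h : S_HOUT) {N : ℤ} (hN : UpB Gs N) :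
    RankBSD (-12987 * N ^ 2) (-263466 * N ^ 3) ∧ RZ N := by
  obtain ⟨D, k, h1, h2, h3, rfl⟩ := hN
  have hz : RZ D := (gs_iff h h1).2 h2
  have hab : (4 * (-12987) ^ 3 + 27 * (-263466) ^ 2 : ℤ) ≠ 0 := by norm_num
  have hZ := ZB_scale hab h1.1.ne h3 (zb_of h h1 hz)
  refine ⟨?_, (rz_scale h1.1.ne h3).2 hz⟩
  obtain ⟨F, ⟨hF, hFp⟩, hF1⟩ := hZ.1
  exact ⟨F, hF, hFp, hF1, finrank_EQ_zero hZ⟩

/-- the good numbers among the numbers which are of class `b` up to squares -/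
theorem good_iff' (h : S_HOUT) {N : ℤ} (hN : UpB (fun _ => True) N) : UpB Gs N ↔ RZ N := by
  constructor
  · exact fun h1 => (rank_of h h1).2
  · intro h1
    obtain ⟨D, k, g1, -, g3, rfl⟩ := hN
    exact ⟨D, k, g1, (gs_iff h g1).1 ((rz_scale g1.1.ne g3).1 h1), g3, rfl⟩

theorem upB_self {M : ℤ} (hM : DB M) : UpB (fun _ => True) M :=
  ⟨M, 1, hM, trivial, one_ne_zero, by ring⟩

/-- all twists of a family -/
theorem pg_iff (h : S_HOUT) {ι : Type} {g : ι → ℤ} (hg : ∀ t, IsA (g t)) {M : ℤ} (hM : DB M) :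
    PG (fun _ => Gs) g M ↔ ∀ t, RZ (M * g t) :=
  forall_congr' fun t => good_iff' h ((upB_self hM).mul_A (hg t))

theorem upB_neg {P : Finset ℕ → Prop} {N x : ℤ} (h : UpB P (N * x)) (hx : IsA x) : N < 0 := by
  obtain ⟨D, k, h1, -, h2, h3⟩ := h
  have h4 : 0 < k ^ 2 := by positivity
  have h5 := isA_pos hx
  by_contra hcon
  have : 0 ≤ N * x := mul_nonneg (not_lt.1 hcon) h5.le
  nlinarith [h1.1]

/-- a squarefree number whose product with a number of class `a` is of class `b` is of class `b` -/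
theorem db_of {P : Finset ℕ → Prop} {N x : ℤ} (hs : Squarefree N) (h : UpB P (N * x)) (hx : IsA x) :
    DB N := by
  have hN := upB_neg h hx
  obtain ⟨D, k, h1, -, h2, h3⟩ := h
  have h4 : UpB (fun _ => True) (D * k ^ 2) := ⟨D, k, h1, trivial, h2, rfl⟩
  have h5 := h4.mul_A hx
  rw [← h3] at h5
  obtain ⟨D', k', g1, -, g2, g3⟩ := h5
  have hx0 : x ≠ 0 := (isA_pos hx).ne'
  have e : N = D' := by
    refine sqf_unique hs g1.2.1 (k := x) (k' := k') hx0 g2 ?_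
    rw [← g3]
    ring
  rw [e]
  exact g1

theorem pg_db {ι : Type} [Nonempty ι] {P : ι → Finset ℕ → Prop} {g : ι → ℤ} (hg : ∀ t, IsA (g t))
    {M : ℤ} (hs : Squarefree M) (h : PG P g M) : DB M := by
  obtain ⟨t⟩ := ‹Nonempty ι›
  exact db_of hs (h t) (hg t)

/-- **the joint law over `ℚ`**, natural densities in the class and among all squarefree integers -/
theorem joint_z (hJ : XG.S_XGDEN) {ι : Type} [Fintype ι] [Nonempty ι] {g : ι → ℤ}
    (hg : ∀ t, IsA (g t)) (hns : ∀ t t', t ≠ t' → ¬ IsSquare (g t * g t')) (rr : ι → ℕ) :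
    Tendsto (fun X : ℕ => cz (fun M => PG (fun t => Rk (rr t)) g M) X /
      cz (fun M => M < 0 ∧ M % 3 = 1 ∧ (M % 5 = 2 ∨ M % 5 = 3)) X) atTop
      (𝓝 (∏ t, PJ.law 0 (rr t))) ∧
    Tendsto (fun X : ℕ => cz (fun M => PG (fun t => Rk (rr t)) g M) X /
      cz (fun _ => True) X) atTop (𝓝 (5 / 64 * ∏ t, PJ.law 0 (rr t))) := by
  have h := law_twists hJ hg hns rr
  have h1 : Tendsto (fun X : ℕ => cn (fun D => PG (fun t => Rk (rr t)) g (-(D : ℤ))) X /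
      cn (fun D => D % 15 ∈ cB) X) atTop (𝓝 (∏ t, PJ.law 0 (rr t))) := by
    refine h.congr fun X => ?_
    rw [← cn_eq, ← cn_eq]
  have h2 := two_forms dens_cB h1
  have e : ∀ X : ℕ, cz (fun M => PG (fun t => Rk (rr t)) g M) X =
      cn (fun D => PG (fun t => Rk (rr t)) g (-(D : ℤ))) X := fun X =>
    cz_neg (fun M hM hs hp => absurd (pg_db hg hs hp).1 (by omega)) X
  simp only [e, cz_B, cz_all]
  exact ⟨h1, h2⟩

/-- all the twists of a family have no Selmer elements -/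
theorem joint_zero (hJ : XG.S_XGDEN) (h : S_HOUT) {ι : Type} [Fintype ι] [Nonempty ι] {g : ι → ℤ}
    (hg : ∀ t, IsA (g t)) (hns : ∀ t t', t ≠ t' → ¬ IsSquare (g t * g t')) :
    Tendsto (fun X : ℕ => cz (fun M => (M < 0 ∧ M % 3 = 1 ∧ (M % 5 = 2 ∨ M % 5 = 3)) ∧
        ∀ t, RZ (M * g t)) X /
      cz (fun M => M < 0 ∧ M % 3 = 1 ∧ (M % 5 = 2 ∨ M % 5 = 3)) X) atTop
      (𝓝 (eta ^ Fintype.card ι)) ∧
    Tendsto (fun X : ℕ => cz (fun M => (M < 0 ∧ M % 3 = 1 ∧ (M % 5 = 2 ∨ M % 5 = 3)) ∧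
        ∀ t, RZ (M * g t)) X /
      cz (fun _ => True) X) atTop (𝓝 (5 / 64 * eta ^ Fintype.card ι)) := by
  have h1 := joint_z hJ hg hns (fun _ => 0)
  rw [Finset.prod_const, Finset.card_univ, PJ.t_LAW.zero] at h1
  have e : ∀ X : ℕ, cz (fun M => (M < 0 ∧ M % 3 = 1 ∧ (M % 5 = 2 ∨ M % 5 = 3)) ∧
      ∀ t, RZ (M * g t)) X = cz (fun M => PG (fun _ => Rk 0) g M) X := by
    intro X
    unfold cz
    congr 2
    ext M
    simp only [Finset.mem_filter]
    refine and_congr_right fun _ => and_congr_right fun hs => ?_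
    constructor
    · rintro ⟨⟨h2, h3⟩, h4⟩
      exact (pg_iff h hg ⟨h2, hs, h3⟩).2 h4
    · intro h2
      have h3 : DB M := pg_db hg hs h2
      exact ⟨⟨h3.1, h3.2.2⟩, (pg_iff h hg h3).1 h2⟩
  simp only [e]
  exact h1

end Pool.Agent.NH4.XH
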